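import Pool.Agent.W623.SecC.Defs

/-!
# Part A1 of project SC (helper337)

The coordinates of the points of order a power of two are integral.
-/

open Polynomial

namespace Pool.Agent.W337.SecC

universe u

open Pool.Agent.W623.SecC

section lem

variable {K : Type*} [Field K] {V : ValuationSubring K}

lemma isU_mul {a b : K} (ha : IsU V a) (hb : IsU V b) : IsU V (a * b) :=
  ⟨mul_ne_zero ha.1 hb.1, V.mul_mem _ _ ha.2.1 hb.2.1, by
    rw [mul_inv]; exact V.mul_mem _ _ ha.2.2 hb.2.2⟩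

lemma isU_left {a b : K} (ha : a ∈ V) (hb : b ∈ V) (h : IsU V (a * b)) : IsU V a := by
  have ha0 : a ≠ 0 := left_ne_zero_of_mul h.1
  have hb0 : b ≠ 0 := right_ne_zero_of_mul h.1
  refine ⟨ha0, ha, ?_⟩
  have : a⁻¹ = b * (a * b)⁻¹ := by field_simp
  rw [this]
  exact V.mul_mem _ _ hb h.2.2

lemma isU_right {a b : K} (ha : a ∈ V) (hb : b ∈ V) (h : IsU V (a * b)) : IsU V b :=
  isU_left hb ha (by rwa [mul_comm])

lemma isU_neg {a : K} (ha : IsU V a) : IsU V (-a) :=
  ⟨neg_ne_zero.2 ha.1, V.neg_mem _ ha.2.1, by rw [inv_neg]; exact V.neg_mem _ ha.2.2⟩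

lemma mem_of_sq {a : K} (h : a ^ 2 ∈ V) : a ∈ V := by
  rcases V.mem_or_inv_mem a with h1 | h1
  · exact h1
  · by_cases h0 : a = 0
    · rw [h0]; exact V.zero_mem
    · have : a = a ^ 2 * a⁻¹ := by field_simp
      rw [this]
      exact V.mul_mem _ _ h h1

lemma key (x y a b c : K) (hy : y ≠ 0) (h2 : (2 : K) ≠ 0) (h : y ^ 2 = (x - a) * (x - b) * (x - c)) :
    (((x - a) ^ 2 - (a - b) * (a - c)) / (2 * y)) ^ 2 =
      ((3 * x ^ 2 - 2 * (a + b + c) * x + (a * b + a * c + b * c)) / (2 * y)) ^ 2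
        + (a + b + c) - 2 * x - a := by
  have h4 : (2 * y) ≠ 0 := mul_ne_zero h2 hy
  have e1 : (((x - a) ^ 2 - (a - b) * (a - c))) ^ 2 =
      (3 * x ^ 2 - 2 * (a + b + c) * x + (a * b + a * c + b * c)) ^ 2
        + ((a + b + c) - 2 * x - a) * (2 * y) ^ 2 := by
    linear_combination (-4) * (b + c - 2 * x) * h
  have e2 : ((a + b + c) - 2 * x - a) = (((a + b + c) - 2 * x - a) * (2 * y) ^ 2) / (2 * y) ^ 2 := by
    rw [mul_div_assoc, div_self (pow_ne_zero 2 h4), mul_one]
  rw [div_pow, div_pow, e1, add_div]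
  rw [← e2]
  ring

lemma key2 (x y a b c : K) (hy : y ≠ 0) (h2 : (2 : K) ≠ 0) (h : y ^ 2 = (x - a) * (x - b) * (x - c)) :
    (((x - a) ^ 2 - (a - b) * (a - c)) / (2 * y) + ((x - b) ^ 2 - (b - c) * (b - a)) / (2 * y)) =
      (x - a) * (x - b) / y := by
  field_simp
  ring

/-- The halving step: if the double of `(x, y)` has integral abscissa then all is integral. -/
lemma step (h2 : (2 : K) ≠ 0) {x y a b c : K} (hy : y ≠ 0) (h : y ^ 2 = (x - a) * (x - b) * (x - c))
    (ha : a ∈ V) (hb : b ∈ V) (hc : c ∈ V) (hab : IsU V (a - b)) (hac : IsU V (a - c))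
    (hbc : IsU V (b - c))
    (hx0 : ((3 * x ^ 2 - 2 * (a + b + c) * x + (a * b + a * c + b * c)) / (2 * y)) ^ 2
        + (a + b + c) - 2 * x ∈ V) :
    x ∈ V ∧ y ∈ V ∧ IsU V (x - a) ∧ IsU V (x - b) ∧ IsU V (x - c) := by
  obtain ⟨x0, hx0e⟩ : ∃ x0, x0 = ((3 * x ^ 2 - 2 * (a + b + c) * x + (a * b + a * c + b * c)) / (2 * y)) ^ 2
        + (a + b + c) - 2 * x := ⟨_, rfl⟩
  rw [← hx0e] at hx0
  obtain ⟨r0, hr0⟩ : ∃ r, r = ((x - a) ^ 2 - (a - b) * (a - c)) / (2 * y) := ⟨_, rfl⟩
  obtain ⟨r1, hr1⟩ : ∃ r, r = ((x - b) ^ 2 - (b - c) * (b - a)) / (2 * y) := ⟨_, rfl⟩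
  obtain ⟨r2, hr2⟩ : ∃ r, r = ((x - c) ^ 2 - (c - a) * (c - b)) / (2 * y) := ⟨_, rfl⟩
  have k0 : r0 ^ 2 = x0 - a := by
    rw [hr0, hx0e, key x y a b c hy h2 h]
  have k1 : r1 ^ 2 = x0 - b := by
    rw [hr1, hx0e, key x y b c a hy h2 (by rw [h]; ring)]
    ring
  have k2 : r2 ^ 2 = x0 - c := by
    rw [hr2, hx0e, key x y c a b hy h2 (by rw [h]; ring)]
    ring
  have s01 : r0 + r1 = (x - a) * (x - b) / y := by
    rw [hr0, hr1, key2 x y a b c hy h2 h]
  have s12 : r1 + r2 = (x - b) * (x - c) / y := by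
    rw [hr1, hr2, key2 x y b c a hy h2 (by rw [h]; ring)]
  have s20 : r2 + r0 = (x - c) * (x - a) / y := by
    rw [hr2, hr0]
    rw [← key2 x y c a b hy h2 (by rw [h]; ring)]
  have m0 : r0 ∈ V := mem_of_sq (by rw [k0]; exact V.sub_mem hx0 ha)
  have m1 : r1 ∈ V := mem_of_sq (by rw [k1]; exact V.sub_mem hx0 hb)
  have m2 : r2 ∈ V := mem_of_sq (by rw [k2]; exact V.sub_mem hx0 hc)
  have u01 : IsU V (r0 + r1) := by
    refine isU_left (V.add_mem _ _ m0 m1) (V.sub_mem m0 m1) ?_
    have : (r0 + r1) * (r0 - r1) = -(a - b) := by linear_combination k0 - k1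
    rw [this]; exact isU_neg hab
  have u12 : IsU V (r1 + r2) := by
    refine isU_left (V.add_mem _ _ m1 m2) (V.sub_mem m1 m2) ?_
    have : (r1 + r2) * (r1 - r2) = -(b - c) := by linear_combination k1 - k2
    rw [this]; exact isU_neg hbc
  have u20 : IsU V (r2 + r0) := by
    refine isU_left (V.add_mem _ _ m2 m0) (V.sub_mem m2 m0) ?_
    have : (r2 + r0) * (r2 - r0) = (a - c) := by linear_combination k2 - k0
    rw [this]; exact hac
  have xa : x - a = (r2 + r0) * (r0 + r1) := by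
    rw [s20, s01]
    field_simp
    linear_combination (x - a) * h
  have xb : x - b = (r0 + r1) * (r1 + r2) := by
    rw [s01, s12]
    field_simp
    linear_combination (x - b) * h
  have xc : x - c = (r1 + r2) * (r2 + r0) := by
    rw [s12, s20]
    field_simp
    linear_combination (x - c) * h
  have ua : IsU V (x - a) := by rw [xa]; exact isU_mul u20 u01
  have ub : IsU V (x - b) := by rw [xb]; exact isU_mul u01 u12
  have uc : IsU V (x - c) := by rw [xc]; exact isU_mul u12 u20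
  have xV : x ∈ V := by
    have : x = (x - a) + a := by ring
    rw [this]; exact V.add_mem _ _ ua.2.1 ha
  refine ⟨xV, mem_of_sq ?_, ua, ub, uc⟩
  rw [h]
  exact V.mul_mem _ _ (V.mul_mem _ _ ua.2.1 ub.2.1) uc.2.1

lemma crv_eqn {e : Fin 3 → K} {W : WeierstrassCurve.Affine K} (hW : W = crv e) {x y : K}
    (h : W.Equation x y) : y ^ 2 = (x - e 0) * (x - e 1) * (x - e 2) := by
  rw [WeierstrassCurve.Affine.equation_iff] at h
  subst hW
  simp only [crv] at h
  linear_combination h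

lemma crv_negY {e : Fin 3 → K} {W : WeierstrassCurve.Affine K} (hW : W = crv e) (x y : K) :
    W.negY x y = -y := by
  subst hW
  simp [WeierstrassCurve.Affine.negY, crv]

end lem

theorem partA1 : PartA1.{u} := by
  classical
  intro K _ _ V h2V e he W hW n
  have h2 : (2 : K) ≠ 0 := two_ne_zero
  induction n with
  | zero =>
    intro x y h hP
    exfalso
    rw [pow_zero, one_smul] at hP
    exact WeierstrassCurve.Affine.Point.some_ne_zero h hP
  | succ n ih =>
    intro x y h hP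
    have heq := crv_eqn hW h.1
    by_cases hy : y = 0
    · rw [hy] at heq
      have h3 : (x - e 0) * (x - e 1) * (x - e 2) = 0 := by
        rw [← heq]; ring
      refine ⟨?_, by rw [hy]; exact V.zero_mem, Or.inl hy⟩
      rcases mul_eq_zero.1 h3 with h4 | h4
      · rcases mul_eq_zero.1 h4 with h5 | h5
        · rw [sub_eq_zero.1 h5]; exact he.1 0
        · rw [sub_eq_zero.1 h5]; exact he.1 1
      · rw [sub_eq_zero.1 h4]; exact he.1 2
    · have hne : y ≠ W.negY x y := by
        rw [crv_negY hW]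
        intro h5
        apply hy
        have : 2 * y = 0 := by linear_combination h5
        exact (mul_eq_zero.1 this).resolve_left h2
      have hdbl : 2 ^ n • (WeierstrassCurve.Affine.Point.some x y h + .some x y h : W.Point) = 0 := by
        rw [← two_nsmul, smul_smul, ← pow_succ]
        exact hP
      rw [WeierstrassCurve.Affine.Point.add_self_of_Y_ne hne] at hdbl
      have h0 := ih _ _ _ hdbl
      have hsl : W.slope x x y y = (3 * x ^ 2 - 2 * (e 0 + e 1 + e 2) * x +
          (e 0 * e 1 + e 0 * e 2 + e 1 * e 2)) / (2 * y) := by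
        rw [WeierstrassCurve.Affine.slope_of_Y_ne rfl hne, crv_negY hW]
        subst hW
        simp only [crv]
        ring
      have hX : W.addX x x (W.slope x x y y) =
          ((3 * x ^ 2 - 2 * (e 0 + e 1 + e 2) * x +
            (e 0 * e 1 + e 0 * e 2 + e 1 * e 2)) / (2 * y)) ^ 2 + (e 0 + e 1 + e 2) - 2 * x := by
        rw [hsl]
        subst hW
        simp only [WeierstrassCurve.Affine.addX, crv]
        ring
      rw [hX] at h0
      obtain ⟨r1, r2, r3, r4, r5⟩ := step h2 hy heq (he.1 0) (he.1 1) (he.1 2)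
        (he.2 0 1 (by decide)) (he.2 0 2 (by decide)) (he.2 1 2 (by decide)) h0.1
      refine ⟨r1, r2, Or.inr ?_⟩
      intro i
      fin_cases i
      · exact r3
      · exact r4
      · exact r5

end Pool.Agent.W337.SecC
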