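import Pool.Agent.W337.SecC.PartA1

/-!
# Part A4 of project SC (helper337)

Counting the points of 2-power order whose coordinates are fixed by a lift of Frobenius.
-/

open Polynomial

namespace Pool.Agent.W337.SecC

universe u

open Pool.Agent.W623.SecC

section lem

variable {K : Type*} [Field K] {V : ValuationSubring K}

lemma non_iff {a : K} : a ∈ V.nonunits ↔ ∃ ha : a ∈ V, IsLocalRing.residue V ⟨a, ha⟩ = 0 := by
  rw [ValuationSubring.mem_nonunits_iff_exists_mem_maximalIdeal]
  constructor
  · rintro ⟨ha, h⟩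
    exact ⟨ha, (IsLocalRing.residue_eq_zero_iff _).2 h⟩
  · rintro ⟨ha, h⟩
    exact ⟨ha, (IsLocalRing.residue_eq_zero_iff _).1 h⟩

lemma non_add {a b : K} (ha : a ∈ V.nonunits) (hb : b ∈ V.nonunits) : a + b ∈ V.nonunits := by
  rw [non_iff] at ha hb ⊢
  obtain ⟨ha, ha'⟩ := ha
  obtain ⟨hb, hb'⟩ := hb
  refine ⟨V.add_mem _ _ ha hb, ?_⟩
  have : (⟨a + b, V.add_mem _ _ ha hb⟩ : V) = ⟨a, ha⟩ + ⟨b, hb⟩ := rfl
  rw [this, map_add, ha', hb', add_zero]

lemma non_mul {a b : K} (ha : a ∈ V.nonunits) (hb : b ∈ V) : a * b ∈ V.nonunits := by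
  rw [non_iff] at ha ⊢
  obtain ⟨ha, ha'⟩ := ha
  refine ⟨V.mul_mem _ _ ha hb, ?_⟩
  have : (⟨a * b, V.mul_mem _ _ ha hb⟩ : V) = ⟨a, ha⟩ * ⟨b, hb⟩ := rfl
  rw [this, map_mul, ha', zero_mul]

lemma non_not_isU {a : K} (ha : a ∈ V.nonunits) : ¬ IsU V a := by
  intro h
  have h1 : a * a⁻¹ ∈ V.nonunits := non_mul ha h.2.2
  rw [mul_inv_cancel₀ h.1, non_iff] at h1
  obtain ⟨h2, h3⟩ := h1
  have : (⟨1, h2⟩ : V) = 1 := rfl
  rw [this, map_one] at h3
  exact one_ne_zero h3

end lem

theorem partA4 (h1 : PartA1.{u}) (_h3 : PartA3.{u}) : PartA4.{u} := by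
  classical
  intro K _ _ V h2V e he W hW φ Q hQ hφ n
  have h20 : (2 : K) ≠ 0 := two_ne_zero
  obtain ⟨S, hS⟩ : ∃ S : Set W.Point, S = {P : W.Point | 2 ^ n • P = 0 ∧ ∀ (x y : K) (h : W.Nonsingular x y),
          P = WeierstrassCurve.Affine.Point.some x y h → φ x = x ∧ φ y = y} := ⟨_, rfl⟩
  rw [← hS]
  let g : W.Point → IsLocalRing.ResidueField V × IsLocalRing.ResidueField V := fun P =>
    match P with
    | .zero => 0
    | .some x y _ => if hx : x ∈ V ∧ y ∈ V then
        (IsLocalRing.residue V ⟨x, hx.1⟩, IsLocalRing.residue V ⟨y, hx.2⟩) else 0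
  let p : (IsLocalRing.ResidueField V)[X] := X ^ Q - X
  have hp : p.natDegree = Q := by
    have h5 : p.natDegree = (X ^ Q : (IsLocalRing.ResidueField V)[X]).natDegree := by
      apply Polynomial.natDegree_sub_eq_left_of_natDegree_lt
      rw [natDegree_X, natDegree_X_pow]
      omega
    rw [h5, natDegree_X_pow]
  have hp0 : p ≠ 0 := by
    intro h
    rw [h, natDegree_zero] at hp
    omega
  let R : Finset (IsLocalRing.ResidueField V) := p.roots.toFinset
  have hR : R.card ≤ Q := (Multiset.toFinset_card_le _).trans ((card_roots' p).trans hp.le)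
  -- integrality
  have hint : ∀ (x y : K) (h : W.Nonsingular x y),
      2 ^ n • (WeierstrassCurve.Affine.Point.some x y h : W.Point) = 0 →
          x ∈ V ∧ y ∈ V ∧ (y = 0 ∨ ∀ i, IsU V (x - e i)) :=
    fun x y h hP => h1 K V h2V e he W hW n x y h hP
  have hroot : ∀ x (hx : x ∈ V), φ x = x → IsLocalRing.residue V ⟨x, hx⟩ ∈ R := by
    intro x hx h
    rw [Multiset.mem_toFinset, mem_roots hp0, IsRoot.def]
    have h5 := hφ x hx
    rw [h, non_iff] at h5
    obtain ⟨h6, h7⟩ := h5
    have h8 : (⟨x - x ^ Q, h6⟩ : V) = ⟨x, hx⟩ - ⟨x, hx⟩ ^ Q := rfl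
    rw [h8, map_sub, map_pow, sub_eq_zero] at h7
    simp only [p, eval_sub, eval_pow, eval_X]
    rw [← h7, sub_self]
  have hmaps : ∀ P ∈ S \ {0}, g P ∈ ((R ×ˢ R : Finset _) : Set (IsLocalRing.ResidueField V × IsLocalRing.ResidueField V)) := by
    rintro P ⟨hP, hP0⟩
    rw [hS] at hP
    match P, hP, hP0 with
    | .zero, _, hP0 => exact absurd rfl hP0
    | .some x y h, hP, _ =>
      obtain ⟨hPn, hPφ⟩ := hP
      obtain ⟨hx, hy, -⟩ := hint x y h hPn
      obtain ⟨fx, fy⟩ := hPφ x y h rfl
      have : g (.some x y h) = (IsLocalRing.residue V ⟨x, hx⟩, IsLocalRing.residue V ⟨y, hy⟩) := by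
        simp only [g]
        rw [dif_pos ⟨hx, hy⟩]
      rw [this, Finset.mem_coe, Finset.mem_product]
      exact ⟨hroot x hx fx, hroot y hy fy⟩
  -- a point with nonunit ordinate has order two
  have hzero : ∀ (x y : K) (h : W.Nonsingular x y),
      2 ^ n • (WeierstrassCurve.Affine.Point.some x y h : W.Point) = 0 → y ∈ V.nonunits →
        y = 0 ∧ ∃ i, x = e i := by
    intro x y h hP hy
    have heq := crv_eqn hW h.1
    obtain ⟨-, hyV, h5⟩ := hint x y h hP
    have hy0 : y = 0 := by
      rcases h5 with h5 | h5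
      · exact h5
      · exfalso
        apply non_not_isU hy
        apply isU_left hyV hyV
        have : y * y = (x - e 0) * (x - e 1) * (x - e 2) := by rw [← heq]; ring
        rw [this]
        exact isU_mul (isU_mul (h5 0) (h5 1)) (h5 2)
    refine ⟨hy0, ?_⟩
    rw [hy0] at heq
    have h3 : (x - e 0) * (x - e 1) * (x - e 2) = 0 := by
      rw [← heq]; ring
    rcases mul_eq_zero.1 h3 with h4 | h4
    · rcases mul_eq_zero.1 h4 with h5 | h5
      · exact ⟨0, sub_eq_zero.1 h5⟩
      · exact ⟨1, sub_eq_zero.1 h5⟩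
    · exact ⟨2, sub_eq_zero.1 h4⟩
  have hhalf : ∀ y : K, 2 * y ∈ V.nonunits → y ∈ V.nonunits := by
    intro y hy
    have h5 := non_mul hy h2V
    have h6 : 2 * y * 2⁻¹ = y := by field_simp
    rwa [h6] at h5
  have hinj : Set.InjOn g (S \ {0}) := by
    rintro P ⟨hP, hP0⟩ P' ⟨hP', hP0'⟩ hg
    rw [hS] at hP hP'
    match P, hP, hP0, P', hP', hP0', hg with
    | .zero, _, hP0, _, _, _, _ => exact absurd rfl hP0
    | .some _ _ _, _, _, .zero, _, hP0', _ => exact absurd rfl hP0'
    | .some x y h, hP, _, .some x' y' h', hP', _, hg =>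
      obtain ⟨hPn, hPφ⟩ := hP
      obtain ⟨hPn', hPφ'⟩ := hP'
      obtain ⟨hx, hy, -⟩ := hint x y h hPn
      obtain ⟨hx', hy', -⟩ := hint x' y' h' hPn'
      simp only [g] at hg
      rw [dif_pos ⟨hx, hy⟩, dif_pos ⟨hx', hy'⟩, Prod.mk.injEq] at hg
      have dx : x - x' ∈ V.nonunits := by
        rw [non_iff]
        refine ⟨V.sub_mem hx hx', ?_⟩
        have : (⟨x - x', V.sub_mem hx hx'⟩ : V) = ⟨x, hx⟩ - ⟨x', hx'⟩ := rfl
        rw [this, map_sub, hg.1, sub_self]
      have dy : y - y' ∈ V.nonunits := by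
        rw [non_iff]
        refine ⟨V.sub_mem hy hy', ?_⟩
        have : (⟨y - y', V.sub_mem hy hy'⟩ : V) = ⟨y, hy⟩ - ⟨y', hy'⟩ := rfl
        rw [this, map_sub, hg.2, sub_self]
      by_cases hxx : x = x'
      · subst hxx
        -- equal abscissas
        have h5 : y ^ 2 = y' ^ 2 := by rw [crv_eqn hW h.1, crv_eqn hW h'.1]
        have h6 : (y - y') * (y + y') = 0 := by linear_combination h5
        rcases mul_eq_zero.1 h6 with h7 | h7
        · have : y = y' := sub_eq_zero.1 h7
          subst this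
          rfl
        · have h8 : y - y' = 2 * y := by linear_combination (-1 : K) * h7
          rw [h8] at dy
          have h9 := (hzero x y h hPn (hhalf y dy)).1
          have h10 : y' = 0 := by rw [h9, zero_add] at h7; exact h7
          subst h9
          subst h10
          rfl
      · exfalso
        have hneg : (-(WeierstrassCurve.Affine.Point.some x' y' h') : W.Point) =
          .some x' (W.negY x' y') ((WeierstrassCurve.Affine.nonsingular_neg ..).mpr h') := rfl
        have hsum : 2 ^ n • (WeierstrassCurve.Affine.Point.some x y h +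
          .some x' (W.negY x' y') ((WeierstrassCurve.Affine.nonsingular_neg ..).mpr h') : W.Point) = 0 := by
          rw [← hneg, smul_add, smul_neg, hPn, hPn', neg_zero, add_zero]
        rw [WeierstrassCurve.Affine.Point.add_of_X_ne hxx] at hsum
        have h5 := (hint _ _ _ hsum).1
        have hsl : W.slope x x' y (W.negY x' y') = (y + y') / (x - x') := by
          rw [WeierstrassCurve.Affine.slope_of_X_ne hxx, crv_negY hW]
          ring
        rw [hsl] at h5
        have hX : W.addX x x' ((y + y') / (x - x')) =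
          ((y + y') / (x - x')) ^ 2 + ((e 0 + e 1 + e 2) - x - x') := by
          subst hW
          simp only [WeierstrassCurve.Affine.addX, crv]
          ring
        rw [hX] at h5
        have h6 : ((y + y') / (x - x')) ^ 2 ∈ V := by
          have h7 : (e 0 + e 1 + e 2) - x - x' ∈ V :=
            V.sub_mem (V.sub_mem (V.add_mem _ _ (V.add_mem _ _ (he.1 0) (he.1 1)) (he.1 2)) hx) hx'
          have h8 := V.sub_mem h5 h7
          rwa [add_sub_cancel_right] at h8
        have h7 : (y + y') / (x - x') ∈ V := mem_of_sq h6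
        have h8 : y + y' ∈ V.nonunits := by
          have h9 := non_mul dx h7
          rwa [mul_div_cancel₀ _ (sub_ne_zero.2 hxx)] at h9
        have h9 : y ∈ V.nonunits := by
          apply hhalf
          have : 2 * y = (y + y') + (y - y') := by ring
          rw [this]
          exact non_add h8 dy
        have h10 : y' ∈ V.nonunits := by
          apply hhalf
          have h11 : -(y - y') ∈ V.nonunits := by
            have h12 := non_mul dy (V.neg_mem _ V.one_mem)
            rwa [mul_neg, mul_one] at h12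
          have : 2 * y' = (y + y') + (-(y - y')) := by ring
          rw [this]
          exact non_add h8 h11
        obtain ⟨-, i, hi⟩ := hzero x y h hPn h9
        obtain ⟨-, j, hj⟩ := hzero x' y' h' hPn' h10
        have hij : i ≠ j := by
          intro hij
          apply hxx
          rw [hi, hj, hij]
        rw [hi, hj] at dx
        exact non_not_isU dx (he.2 i j hij)
  have hfin : (S \ {0}).Finite :=
    Set.Finite.of_injOn (fun P hP => hmaps P hP) hinj (Finset.finite_toSet (R ×ˢ R))
  have hc1 : (S \ {0}).ncard ≤ Q ^ 2 := by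
    refine (Set.ncard_le_ncard_of_injOn g hmaps hinj (Finset.finite_toSet _)).trans ?_
    rw [Set.ncard_coe_finset, Finset.card_product, sq]
    exact Nat.mul_le_mul hR hR
  have hsub : S ⊆ insert 0 (S \ {0}) := by
    intro P hP
    by_cases h0 : P = 0
    · exact Or.inl h0
    · exact Or.inr ⟨hP, h0⟩
  calc S.ncard ≤ (insert 0 (S \ {0})).ncard := Set.ncard_le_ncard hsub (hfin.insert _)
    _ ≤ (S \ {0}).ncard + 1 := Set.ncard_insert_le _ _
    _ ≤ Q ^ 2 + 1 := by omega

end Pool.Agent.W337.SecC
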